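import Pool.Agent.Q81.IM.Stm

/-!
# Project IM, job RO (Rogosinski)
-/

set_option autoImplicit false

open Complex Metric Set MeasureTheory Filter Topology

namespace Pool.Agent.Q299.IM

open Pool.Agent.Q81.IM

/-- the Taylor polynomial -/
noncomputable def tp (f : ℂ → ℂ) (N : ℕ) : Polynomial ℂ :=
  ∑ k ∈ Finset.range (N + 1), Polynomial.monomial k (coef f k)

theorem tp_coeff (f : ℂ → ℂ) (N k : ℕ) :
    (tp f N).coeff k = if k < N + 1 then coef f k else 0 := by
  simp only [tp, Polynomial.finsetSum_coeff, Polynomial.coeff_monomial]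
  rw [Finset.sum_ite_eq']
  simp only [Finset.mem_range]

theorem iter_eval (P : Polynomial ℂ) (k : ℕ) :
    iteratedDeriv k (fun z => P.eval z) = fun z => (Polynomial.derivative^[k] P).eval z := by
  induction k with
  | zero => simp
  | succ k ih =>
    rw [iteratedDeriv_succ, ih, Function.iterate_succ_apply']
    funext z
    exact Polynomial.deriv _

theorem coef_eval (P : Polynomial ℂ) (k : ℕ) : coef (fun z => P.eval z) k = P.coeff k := by
  rw [coef, iter_eval]
  have h1 : (Polynomial.derivative^[k] P).eval 0 = (k.factorial : ℂ) * P.coeff k := by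
    rw [← Polynomial.coeff_zero_eq_eval_zero, Polynomial.coeff_iterate_derivative]
    simp [Nat.descFactorial_self]
  simp only [h1]
  rw [mul_div_cancel_left₀]
  exact_mod_cast k.factorial_ne_zero

theorem analyticAt_of (f : ℂ → ℂ) (h : DifferentiableOn ℂ f (ball 0 1)) : AnalyticAt ℂ f 0 :=
  h.analyticAt (ball_mem_nhds _ one_pos)

theorem iter_comp_eq (f φ : ℂ → ℂ) (hf : DifferentiableOn ℂ f (ball 0 1)) (hφ : Sw φ) (N k : ℕ)
    (hk : k < N + 1) :
    coef (fun z => f (φ z)) k = coef (fun z => (tp f N).eval (φ z)) k := by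
  have hfa := analyticAt_of f hf
  have hφa := analyticAt_of φ hφ.diff
  have hPa : AnalyticAt ℂ (fun z => (tp f N).eval z) 0 :=
    analyticAt_of _ (Polynomial.differentiable _).differentiableOn
  have hfa' : AnalyticAt ℂ f (φ 0) := by rw [hφ.zero]; exact hfa
  have hPa' : AnalyticAt ℂ (fun z => (tp f N).eval z) (φ 0) := by rw [hφ.zero]; exact hPa
  have h1 : ((N + 1 : ℕ) : ℕ∞) ≤ analyticOrderAt (fun z => f z - (tp f N).eval z) 0 := by
    rw [natCast_le_analyticOrderAt_iff_iteratedDeriv_eq_zero (hfa.fun_sub hPa)]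
    intro i hi
    rw [iteratedDeriv_fun_sub hfa.contDiffAt hPa.contDiffAt, sub_eq_zero]
    have h2 := coef_eval (tp f N) i
    rw [tp_coeff, if_pos hi, coef, coef] at h2
    have h3 : ((i.factorial : ℕ) : ℂ) ≠ 0 := by exact_mod_cast i.factorial_ne_zero
    rw [div_left_inj' h3] at h2
    exact h2.symm
  have hd0 : AnalyticAt ℂ (fun z => f z - (tp f N).eval z) 0 := hfa.fun_sub hPa
  have hd : AnalyticAt ℂ (fun z => f z - (tp f N).eval z) (φ 0) := by rw [hφ.zero]; exact hd0
  have h4 : ((N + 1 : ℕ) : ℕ∞) ≤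
      analyticOrderAt ((fun z => f z - (tp f N).eval z) ∘ φ) 0 := by
    rw [hd.analyticOrderAt_comp hφa, hφ.zero]
    have h5 : analyticOrderAt (fun z => φ z - 0) 0 ≠ 0 := by
      rw [AnalyticAt.analyticOrderAt_ne_zero (by fun_prop)]
      simp [hφ.zero]
    have h6 : (1 : ℕ∞) ≤ analyticOrderAt (fun z => φ z - 0) 0 := Order.one_le_iff_ne_zero.2 h5
    calc ((N + 1 : ℕ) : ℕ∞) = ((N + 1 : ℕ) : ℕ∞) * 1 := (mul_one _).symm
      _ ≤ _ := mul_le_mul' h1 h6
  have h7 := (natCast_le_analyticOrderAt_iff_iteratedDeriv_eq_zero (hd.comp hφa)).1 h4 k hk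
  have h8 : iteratedDeriv k (fun z => f (φ z) - (tp f N).eval (φ z)) 0 = 0 := h7
  have c1 : AnalyticAt ℂ (fun z => f (φ z)) 0 := hfa'.comp hφa
  have c2 : AnalyticAt ℂ (fun z => (tp f N).eval (φ z)) 0 := hPa'.comp hφa
  rw [iteratedDeriv_fun_sub c1.contDiffAt c2.contDiffAt, sub_eq_zero] at h8
  rw [coef, coef, h8]

theorem ro (hPO : S_PO) (hPA : S_PA) : S_RO := by
  intro f φ hf hφ N
  have key : ∀ r : ℝ, 0 < r → r < 1 →
      ∑ k ∈ Finset.range (N + 1), ‖coef (fun z => f (φ z)) k‖ ^ 2 * r ^ (2 * k) ≤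
        ∑ k ∈ Finset.range (N + 1), ‖coef f k‖ ^ 2 * r ^ (2 * k) := by
    intro r hr hr1
    have hd : DifferentiableOn ℂ (fun z => (tp f N).eval (φ z)) (ball 0 1) :=
      (Polynomial.differentiable (tp f N)).comp_differentiableOn hφ.diff
    have h1 := hPA _ r hd hr hr1
    have h2 := hPA (fun z => (tp f N).eval z) r (Polynomial.differentiable _).differentiableOn
      hr hr1
    have h3 : ∑ k ∈ Finset.range (N + 1), ‖coef (fun z => f (φ z)) k‖ ^ 2 * r ^ (2 * k) ≤
        (2 * Real.pi)⁻¹ * ∫ t in (0 : ℝ)..(2 * Real.pi), ‖(tp f N).eval (φ (cp r t))‖ ^ 2 := by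
      refine le_trans (le_of_eq ?_) (sum_le_hasSum (Finset.range (N + 1)) ?_ h1)
      · refine Finset.sum_congr rfl fun k hk => ?_
        rw [iter_comp_eq f φ hf hφ N k (Finset.mem_range.1 hk)]
      · intro k _
        positivity
    have h4 : ∑ k ∈ Finset.range (N + 1), ‖coef f k‖ ^ 2 * r ^ (2 * k) =
        (2 * Real.pi)⁻¹ * ∫ t in (0 : ℝ)..(2 * Real.pi), ‖(tp f N).eval (cp r t)‖ ^ 2 := by
      refine HasSum.unique ?_ h2
      have h6 : ∀ k ∉ Finset.range (N + 1),
          ‖coef (fun z => (tp f N).eval z) k‖ ^ 2 * r ^ (2 * k) = 0 := by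
        intro k hk
        rw [coef_eval, tp_coeff, if_neg (fun h => hk (Finset.mem_range.2 h))]
        simp
      have h7 : ∑ k ∈ Finset.range (N + 1), ‖coef f k‖ ^ 2 * r ^ (2 * k) =
          ∑ k ∈ Finset.range (N + 1), ‖coef (fun z => (tp f N).eval z) k‖ ^ 2 * r ^ (2 * k) := by
        refine Finset.sum_congr rfl fun k hk => ?_
        rw [coef_eval, tp_coeff, if_pos (Finset.mem_range.1 hk)]
      rw [h7]
      exact hasSum_sum_of_ne_finset_zero h6
    rw [h4]
    refine h3.trans ?_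
    exact mul_le_mul_of_nonneg_left (hPO _ φ r hφ hr hr1) (by positivity)
  have hc : ∀ a : ℕ → ℝ, Tendsto (fun r : ℝ => ∑ k ∈ Finset.range (N + 1), a k * r ^ (2 * k))
      (𝓝[<] 1) (𝓝 (∑ k ∈ Finset.range (N + 1), a k)) := by
    intro a
    have h : Continuous fun r : ℝ => ∑ k ∈ Finset.range (N + 1), a k * r ^ (2 * k) := by
      fun_prop
    have h2 := (h.tendsto 1).mono_left (nhdsWithin_le_nhds (s := Iio 1))
    simpa using h2
  refine le_of_tendsto_of_tendsto (hc _) (hc _) ?_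
  filter_upwards [Ioo_mem_nhdsLT (show (0 : ℝ) < 1 from one_pos)] with r hr
  exact key r hr.1 hr.2

end Pool.Agent.Q299.IM
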